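import Pool.Agent.H80.JD.Walk

/-!
# Module EXS of the board jd_modules (MP_38f78d_pr): exponential moment of one step
-/

set_option autoImplicit false

namespace Pool.Agent.H92.JD

open Finset Filter Topology Pool.Agent.H80.JD

theorem exp_neg_le (u : ℝ) (hu : 0 ≤ u) : Real.exp (-u) ≤ 1 - u + u ^ 2 / 2 := by
  have h1 := Real.quadratic_le_exp_of_nonneg hu
  have h2 : 0 < 1 + u + u ^ 2 / 2 := by positivity
  have h3 : Real.exp (-u) ≤ (1 + u + u ^ 2 / 2)⁻¹ := by
    rw [Real.exp_neg]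
    exact inv_anti₀ h2 h1
  refine h3.trans ?_
  rw [inv_le_iff_one_le_mul₀ h2]
  have h4 : (1 - u + u ^ 2 / 2) * (1 + u + u ^ 2 / 2) = 1 + u ^ 4 / 4 := by ring
  rw [h4]
  have : 0 ≤ u ^ 4 := by positivity
  linarith

theorem exs (hKH : T_KH) : T_EXS := by
  intro m D G R η hη hR hRD hG hηR
  obtain ⟨h2, h4⟩ := hKH m D
  rw [← hRD] at h2 h4
  have hcard : (∑ v : Fin m → Bool, (1 : ℝ)) = 2 ^ m := by
    simp
  have hM : (0 : ℝ) < 2 ^ m := by positivity
  set Z : ℝ := ∑ v : Fin m → Bool, |lin D v| with hZ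
  have hzz : ∀ v : Fin m → Bool, |lin D v| ^ 2 = (lin D v) ^ 2 := fun v => sq_abs _
  have hz4 : ∀ v : Fin m → Bool, |lin D v| ^ 4 = (lin D v) ^ 4 := fun v => by
    rw [← abs_pow]
    exact abs_of_nonneg (by positivity)
  have hpt : ∀ v : Fin m → Bool,
      12 * R ^ 2 * (lin D v) ^ 2 - (lin D v) ^ 4 ≤ 16 * R ^ 3 * |lin D v| := by
    intro v
    rw [← hzz v, ← hz4 v]
    have hz := abs_nonneg (lin D v)
    set z := |lin D v| with hzdef
    have : 0 ≤ z * (z - 2 * R) ^ 2 * (z + 4 * R) := by positivity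
    nlinarith [this]
  have hsum : 12 * R ^ 2 * (2 ^ m * R ^ 2) - 3 * 2 ^ m * (R ^ 2) ^ 2 ≤ 16 * R ^ 3 * Z := by
    have h5 : ∑ v : Fin m → Bool, (12 * R ^ 2 * (lin D v) ^ 2 - (lin D v) ^ 4) ≤
        ∑ v : Fin m → Bool, 16 * R ^ 3 * |lin D v| := Finset.sum_le_sum fun v _ => hpt v
    rw [Finset.sum_sub_distrib, ← Finset.mul_sum, ← Finset.mul_sum, h2] at h5
    linarith
  have hZlow : 9 / 16 * (2 ^ m * R) ≤ Z := by
    have h6 : 16 * R ^ 3 * (9 / 16 * (2 ^ m * R)) ≤ 16 * R ^ 3 * Z := by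
      have : 16 * R ^ 3 * (9 / 16 * (2 ^ m * R)) =
          12 * R ^ 2 * (2 ^ m * R ^ 2) - 3 * 2 ^ m * (R ^ 2) ^ 2 := by ring
      rw [this]
      exact hsum
    exact le_of_mul_le_mul_left h6 (by positivity)
  have hexp : ∑ v : Fin m → Bool, Real.exp (-(η * |lin D v|)) ≤
      2 ^ m * (1 - 5 / 16 * (η * R)) := by
    have h7 : ∑ v : Fin m → Bool, Real.exp (-(η * |lin D v|)) ≤
        ∑ v : Fin m → Bool, (1 - η * |lin D v| + (η ^ 2 / 2) * (lin D v) ^ 2) := by
      refine Finset.sum_le_sum fun v _ => ?_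
      have h8 := exp_neg_le (η * |lin D v|) (by positivity)
      have h9 : (η * |lin D v|) ^ 2 / 2 = (η ^ 2 / 2) * (lin D v) ^ 2 := by
        rw [mul_pow, hzz]; ring
      rw [h9] at h8
      exact h8
    rw [Finset.sum_add_distrib, Finset.sum_sub_distrib, hcard, ← Finset.mul_sum,
      ← Finset.mul_sum, h2] at h7
    refine h7.trans ?_
    have h10 : η * (9 / 16 * (2 ^ m * R)) ≤ η * Z := mul_le_mul_of_nonneg_left hZlow hη
    have h11 : (η * R) * (η * R) ≤ (η * R) * (1 / 2) :=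
      mul_le_mul_of_nonneg_left hηR (by positivity)
    have h12 : η ^ 2 / 2 * (2 ^ m * R ^ 2) ≤ 2 ^ m * (η * R / 4) := by
      have : η ^ 2 / 2 * (2 ^ m * R ^ 2) = 2 ^ m * ((η * R) * (η * R) / 2) := by ring
      rw [this]
      refine mul_le_mul_of_nonneg_left ?_ hM.le
      linarith
    have h13 : 2 ^ m * (1 - 5 / 16 * (η * R)) =
        2 ^ m - η * (9 / 16 * (2 ^ m * R)) + 2 ^ m * (η * R / 4) := by ring
    rw [h13]
    linarith
  have hexp2 : 2 ^ m * (1 - 5 / 16 * (η * R)) ≤ 2 ^ m * Real.exp (-(5 / 16 * (η * R))) := by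
    refine mul_le_mul_of_nonneg_left ?_ hM.le
    have := Real.add_one_le_exp (-(5 / 16 * (η * R)))
    linarith
  have hfin : ∑ v : Fin m → Bool, Real.exp (η * (G - |lin D v|)) =
      Real.exp (η * G) * ∑ v : Fin m → Bool, Real.exp (-(η * |lin D v|)) := by
    rw [Finset.mul_sum]
    refine Finset.sum_congr rfl fun v _ => ?_
    rw [← Real.exp_add]
    congr 1
    ring
  rw [hfin]
  calc Real.exp (η * G) * ∑ v : Fin m → Bool, Real.exp (-(η * |lin D v|))
      ≤ Real.exp (η * G) * (2 ^ m * Real.exp (-(5 / 16 * (η * R)))) :=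
        mul_le_mul_of_nonneg_left (hexp.trans hexp2) (Real.exp_pos _).le
    _ = 2 ^ m * Real.exp (η * G - 5 / 16 * (η * R)) := by
        rw [sub_eq_add_neg, Real.exp_add]; ring
    _ ≤ 2 ^ m * 1 := by
        refine mul_le_mul_of_nonneg_left ?_ hM.le
        rw [Real.exp_le_one_iff]
        have h14 : η * G ≤ η * (R / 4) := mul_le_mul_of_nonneg_left hG hη
        have h15 : 0 ≤ η * R := by positivity
        linarith
    _ = 2 ^ m := mul_one _

end Pool.Agent.H92.JD
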